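import Pool.Agent.H948.HS.Stm

/-!
Project HS (helper948), problem MP_047546_pr: part `S_HWREC` (Hammersley–Welsh recursion in one
direction), by helper947.
-/

set_option autoImplicit false

namespace Pool.Agent.H947.HS

open MeasureTheory ProbabilityTheory Set Filter Metric
open scoped ENNReal NNReal Topology RealInnerProductSpace
open Pool.Agent.H948.HS

/-- The numerical recursion. -/
theorem numrec (C A β ρ : ℝ) (T : ℕ) (hT : 1 ≤ T) (hβ : 0 < β) (hβρ : β < ρ) (hA : 0 ≤ A)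
    (hC : 0 ≤ C) (hs : A * (β / ρ) ^ T / (1 - β / ρ) ≤ 1 / 2) (x : Bool → ℕ → ℝ)
    (hx : ∀ b n, x b n ≤ C * ρ ^ n + ∑ t ∈ Finset.Icc T n, (A * β ^ t) * x (!b) (n - t)) :
    ∀ n b, x b n ≤ 2 * C * ρ ^ n := by
  have hρ : 0 < ρ := hβ.trans hβρ
  intro n
  induction n using Nat.strong_induction_on with
  | _ n ih =>
    intro b
    refine (hx b n).trans ?_
    have h1 : ∑ t ∈ Finset.Icc T n, (A * β ^ t) * x (!b) (n - t) ≤
        ∑ t ∈ Finset.Icc T n, (2 * C * ρ ^ n * A) * (β / ρ) ^ t := by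
      refine Finset.sum_le_sum fun t ht => ?_
      obtain ⟨ht1, ht2⟩ := Finset.mem_Icc.mp ht
      have h2 := ih (n - t) (by omega) (!b)
      have h3 : 0 ≤ A * β ^ t := by positivity
      refine (mul_le_mul_of_nonneg_left h2 h3).trans (le_of_eq ?_)
      have h4 : ρ ^ n = ρ ^ (n - t) * ρ ^ t := by
        rw [← pow_add]
        congr 1
        omega
      rw [h4, div_pow]
      have h5 : ρ ^ t ≠ 0 := (pow_pos hρ t).ne'
      field_simp
    have hq0 : 0 ≤ β / ρ := by positivity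
    have hq1 : β / ρ < 1 := (div_lt_one hρ).mpr hβρ
    have h2 : ∑ t ∈ Finset.Icc T n, (β / ρ) ^ t ≤ (β / ρ) ^ T / (1 - β / ρ) := by
      have : Finset.Icc T n = Finset.Ico T (n + 1) := by
        ext t
        simp only [Finset.mem_Icc, Finset.mem_Ico]
        omega
      rw [this]
      exact geom_sum_Ico_le_of_lt_one hq0 hq1
    rw [← Finset.mul_sum] at h1
    have h3 : 2 * C * ρ ^ n * A * ∑ t ∈ Finset.Icc T n, (β / ρ) ^ t ≤ C * ρ ^ n := by
      have h4 : 0 ≤ 2 * C * ρ ^ n * A := by positivity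
      refine (mul_le_mul_of_nonneg_left h2 h4).trans ?_
      have h5 : 0 ≤ 2 * C * ρ ^ n := by positivity
      calc 2 * C * ρ ^ n * A * ((β / ρ) ^ T / (1 - β / ρ)) =
          2 * C * ρ ^ n * (A * (β / ρ) ^ T / (1 - β / ρ)) := by ring
        _ ≤ 2 * C * ρ ^ n * (1 / 2) := mul_le_mul_of_nonneg_left hs h5
        _ = C * ρ ^ n := by ring
    linarith

variable {m : ℕ}

/-- Two consecutive blocks. -/
theorem two_blocks (hB : S_BLOCK) (a b : ℕ) (U V : Set (Om m)) (hU : MeasurableSet U)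
    (hU' : Loc a U) (hV : MeasurableSet V) (hV' : Loc b V) :
    (Pm m).real {u | u ∈ U ∧ shift a u ∈ V} = (Pm m).real U * (Pm m).real V := by
  have h := hB m 2 (fun i => if i = 0 then 0 else a) (fun i => if i = 0 then a else b)
    (fun i => if i = 0 then U else V) (by
      intro i hi
      interval_cases i
      · exact ⟨hU, hU'⟩
      · exact ⟨hV, hV'⟩) (by
      intro i hi
      have : i = 0 := by omega
      subst this
      simp)
  rw [Finset.prod_range_succ, Finset.prod_range_one] at h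
  have e : {u : Om m | ∀ i < 2, shift (if i = 0 then 0 else a) u ∈ (if i = 0 then U else V)} =
      {u | u ∈ U ∧ shift a u ∈ V} := by
    ext u
    simp only [mem_ofPred_eq]
    constructor
    · intro hu
      have h0 := hu 0 (by norm_num)
      have h1 := hu 1 (by norm_num)
      rw [if_pos rfl, if_pos rfl, shift_zero] at h0
      rw [if_neg one_ne_zero, if_neg one_ne_zero] at h1
      exact ⟨h0, h1⟩
    · rintro ⟨h0, h1⟩ i hi
      interval_cases i
      · rw [if_pos rfl, if_pos rfl, shift_zero]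
        exact h0
      · rw [if_neg one_ne_zero, if_neg one_ne_zero]
        exact h1
  rw [← e]
  exact h

/-- The start is a minimum in the direction `f`. -/
def Hs (m : ℕ) (c : ℝ) (a : ℕ) (s : ℝ) (f : E m) (n : ℕ) : Set (Om m) :=
  {u | u ∈ Gs m c a s n ∧ ∀ j, j ≤ n → 0 ≤ ⟪f, S u 0 j⟫}

/-- The end is a maximum in the direction `f`. -/
def He (m : ℕ) (c : ℝ) (a : ℕ) (s : ℝ) (f : E m) (n : ℕ) : Set (Om m) :=
  {u | u ∈ Gs m c a s n ∧ ∀ j, j ≤ n → ⟪f, S u 0 j⟫ ≤ ⟪f, S u 0 n⟫}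

theorem meas_Hs (c : ℝ) (a : ℕ) (s : ℝ) (f : E m) (n : ℕ) : MeasurableSet (Hs m c a s f n) := by
  unfold Hs
  refine (meas_Gs c a s n).inter ?_
  refine meas_all fun j => meas_all fun _ => ?_
  exact measurableSet_le measurable_const (measurable_inner_S f 0 j)

theorem meas_He (c : ℝ) (a : ℕ) (s : ℝ) (f : E m) (n : ℕ) : MeasurableSet (He m c a s f n) := by
  unfold He
  refine (meas_Gs c a s n).inter ?_
  refine meas_all fun j => meas_all fun _ => ?_
  exact measurableSet_le (measurable_inner_S f 0 j) (measurable_inner_S f 0 n)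

theorem loc_Hs (c : ℝ) (a : ℕ) (s : ℝ) (f : E m) (n : ℕ) : Loc n (Hs m c a s f n) := by
  refine loc_and (loc_Gs c a s n) ?_
  intro u v h h1 j hj
  rw [← S_congr h hj]
  exact h1 j hj

theorem loc_He (c : ℝ) (a : ℕ) (s : ℝ) (f : E m) (n : ℕ) : Loc n (He m c a s f n) := by
  refine loc_and (loc_Gs c a s n) ?_
  intro u v h h1 j hj
  rw [← S_congr h hj, ← S_congr (i := 0) h le_rfl]
  exact h1 j hj

theorem inner_add (f : E m) (u : Om m) {j k : ℕ} (h : j ≤ k) :
    ⟪f, S u j k⟫ = ⟪f, S u 0 k⟫ - ⟪f, S u 0 j⟫ := by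
  rw [← S_add u (Nat.zero_le j) h, inner_add_right]
  ring

/-- small oscillation in one more direction -/
theorem gs_succ {c s : ℝ} {a n : ℕ} {f : E m} (ha : a < m + 1)
    (hf : ∀ x : E m, |⟪f, x⟫| = |x ⟨a, ha⟩|) {u : Om m} (hu : u ∈ Gs m c a s n)
    (h : ∀ i j, i ≤ j → j ≤ n → |⟪f, S u 0 j⟫ - ⟪f, S u 0 i⟫| < s) : u ∈ Gs m c (a + 1) s n := by
  refine ⟨hu.1, fun r hr i j hij hj => ?_⟩
  rcases Nat.lt_succ_iff_lt_or_eq.mp hr with h1 | h1
  · exact hu.2 r h1 i j hij hj
  · have h2 := h i j hij hj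
    rw [← inner_add f u hij, hf] at h2
    have e : r = ⟨a, ha⟩ := Fin.ext h1
    rw [e]
    exact h2

theorem exists_argmax (h : ℕ → ℝ) (n : ℕ) : ∃ t ≤ n, ∀ j ≤ n, h j ≤ h t := by
  obtain ⟨t, ht, hmax⟩ := Finset.exists_max_image (Finset.range (n + 1)) h
    ⟨0, Finset.mem_range.mpr (Nat.succ_pos n)⟩
  exact ⟨t, Nat.lt_succ_iff.mp (Finset.mem_range.mp ht),
    fun j hj => hmax j (Finset.mem_range.mpr (Nat.lt_succ_of_le hj))⟩

theorem inner_le_len {f : E m} (hf : ‖f‖ = 1) (u : Om m) (i j : ℕ) :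
    ⟪f, S u i j⟫ ≤ ((j - i : ℕ) : ℝ) := by
  refine (real_inner_le_norm _ _).trans ?_
  rw [hf, one_mul]
  exact norm_S_le u i j

theorem sub_Hs {c s : ℝ} {a n : ℕ} {f : E m} (ha : a < m + 1) (hf1 : ‖f‖ = 1)
    (hf : ∀ x : E m, |⟪f, x⟫| = |x ⟨a, ha⟩|) :
    Hs m c a s f n ⊆ Gs m c (a + 1) s n ∪ ⋃ t ∈ Finset.Icc ⌈s⌉₊ n,
      {u | u ∈ Wb m c f t ∧ shift t u ∈ Hs m c a s (-f) (n - t)} := by
  rintro u ⟨hu, hu0⟩
  obtain ⟨t, htn, hmax⟩ := exists_argmax (fun j => ⟪f, S u 0 j⟫) n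
  by_cases hs : ⟪f, S u 0 t⟫ < s
  · left
    refine gs_succ ha hf hu fun i j hij hj => ?_
    have h1 := hmax i (hij.trans hj)
    have h2 := hmax j hj
    have h3 := hu0 i (hij.trans hj)
    have h4 := hu0 j hj
    rw [abs_lt]
    constructor <;> linarith
  · right
    push Not at hs
    have hts : ⌈s⌉₊ ≤ t := by
      rw [Nat.ceil_le]
      have := inner_le_len hf1 u 0 t
      rw [Nat.sub_zero] at this
      linarith
    rw [mem_iUnion₂]
    refine ⟨t, Finset.mem_Icc.mpr ⟨hts, htn⟩, ⟨saw_mono hu.1 htn, fun j hj => ?_⟩,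
      gs_shift hu (by omega), fun j hj => ?_⟩
    · exact ⟨hu0 j (hj.trans htn), hmax j (hj.trans htn)⟩
    · rw [S_shift, add_zero, inner_neg_left, inner_add f u (Nat.le_add_right t j)]
      have h1 := hmax (t + j) (by omega)
      linarith

theorem sub_He {c s : ℝ} {a n : ℕ} {f : E m} (ha : a < m + 1) (hf1 : ‖f‖ = 1)
    (hf : ∀ x : E m, |⟪f, x⟫| = |x ⟨a, ha⟩|) :
    He m c a s f n ⊆ Gs m c (a + 1) s n ∪ ⋃ t ∈ Finset.Icc ⌈s⌉₊ n,
      {u | u ∈ He m c a s (-f) (n - t) ∧ shift (n - t) u ∈ Wb m c f t} := by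
  rintro u ⟨hu, hu0⟩
  obtain ⟨t, htn, hmin⟩ := exists_argmax (fun j => -⟪f, S u 0 j⟫) n
  by_cases hs : ⟪f, S u 0 n⟫ - ⟪f, S u 0 t⟫ < s
  · left
    refine gs_succ ha hf hu fun i j hij hj => ?_
    have h1 := hmin i (hij.trans hj)
    have h2 := hmin j hj
    have h3 := hu0 i (hij.trans hj)
    have h4 := hu0 j hj
    rw [abs_lt]
    constructor <;> linarith
  · right
    push Not at hs
    have hts : ⌈s⌉₊ ≤ n - t := by
      rw [Nat.ceil_le]
      have := inner_le_len hf1 u t n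
      rw [inner_add f u htn] at this
      linarith
    have e : n - (n - t) = t := by omega
    rw [mem_iUnion₂]
    refine ⟨n - t, Finset.mem_Icc.mpr ⟨hts, Nat.sub_le n t⟩, ?_⟩
    rw [e]
    refine ⟨⟨gs_mono hu htn, fun j hj => ?_⟩, saw_shift hu.1 (by omega), fun j hj => ?_⟩
    · rw [inner_neg_left, inner_neg_left]
      exact hmin j (hj.trans htn)
    · have e2 : t + (n - t) = n := by omega
      rw [S_shift, S_shift, add_zero, e2, inner_add f u (Nat.le_add_right t j),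
        inner_add f u htn]
      have h1 := hmin (t + j) (by omega)
      have h2 := hu0 (t + j) (by omega)
      constructor <;> linarith

/-- **[HWREC]** -/
theorem s_hwrec (hB : S_BLOCK) : S_HWREC := by
  intro m c a s β ρ A C hc ha hs hβ hβρ hA hC hWb hsm hGs
  have hT : 1 ≤ ⌈s⌉₊ := Nat.one_le_iff_ne_zero.mpr (Nat.ceil_pos.mpr hs).ne'
  set e : E m := EuclideanSpace.single ⟨a, ha⟩ 1 with he
  have he1 : ‖e‖ = 1 := by simp [he]
  have hex : ∀ x : E m, ⟪e, x⟫ = x ⟨a, ha⟩ := fun x => by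
    rw [he, EuclideanSpace.inner_single_left]
    simp
  set F : Bool → E m := fun b => if b then e else -e with hF
  have hF1 : ∀ b, ‖F b‖ = 1 := by
    intro b
    cases b
    · show ‖-e‖ = 1
      rw [norm_neg, he1]
    · exact he1
  have hFn : ∀ b, -F b = F (!b) := by
    intro b
    cases b
    · exact neg_neg e
    · rfl
  have hFx : ∀ b (x : E m), |⟪F b, x⟫| = |x ⟨a, ha⟩| := by
    intro b x
    cases b
    · show |⟪-e, x⟫| = _
      rw [inner_neg_left, abs_neg, hex]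
    · show |⟪e, x⟫| = _
      rw [hex]
  -- the two recursions
  have r1 : ∀ n b, (Pm m).real (Hs m c a s (F b) n) ≤ 2 * C * ρ ^ n := by
    refine numrec C A β ρ ⌈s⌉₊ hT hβ hβρ hA hC hsm
      (fun b n => (Pm m).real (Hs m c a s (F b) n)) fun b n => ?_
    refine (measureReal_mono (sub_Hs ha (hF1 b) (hFx b))).trans ?_
    refine (measureReal_union_le _ _).trans (add_le_add (hGs n) ?_)
    refine (measureReal_biUnion_finset_le _ _).trans (Finset.sum_le_sum fun t _ => ?_)
    rw [two_blocks hB t (n - t) _ _ (meas_Wb c (F b) t) (loc_Wb c (F b) t)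
      (meas_Hs c a s (-F b) (n - t)) (loc_Hs c a s (-F b) (n - t)), hFn]
    exact mul_le_mul_of_nonneg_right (hWb (F b) t (hF1 b)) measureReal_nonneg
  have r2 : ∀ n b, (Pm m).real (He m c a s (F b) n) ≤ 2 * C * ρ ^ n := by
    refine numrec C A β ρ ⌈s⌉₊ hT hβ hβρ hA hC hsm
      (fun b n => (Pm m).real (He m c a s (F b) n)) fun b n => ?_
    refine (measureReal_mono (sub_He ha (hF1 b) (hFx b))).trans ?_
    refine (measureReal_union_le _ _).trans (add_le_add (hGs n) ?_)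
    refine (measureReal_biUnion_finset_le _ _).trans (Finset.sum_le_sum fun t _ => ?_)
    rw [two_blocks hB (n - t) t _ _ (meas_He c a s (-F b) (n - t))
      (loc_He c a s (-F b) (n - t)) (meas_Wb c (F b) t) (loc_Wb c (F b) t), hFn, mul_comm]
    exact mul_le_mul_of_nonneg_right (hWb (F b) t (hF1 b)) measureReal_nonneg
  intro n
  have hsub : Gs m c a s n ⊆ ⋃ t ∈ Finset.range (n + 1),
      {u | u ∈ He m c a s (F false) t ∧ shift t u ∈ Hs m c a s (F true) (n - t)} := by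
    intro u hu
    obtain ⟨t, htn, hmin⟩ := exists_argmax (fun j => -⟪e, S u 0 j⟫) n
    rw [mem_iUnion₂]
    refine ⟨t, Finset.mem_range.mpr (Nat.lt_succ_of_le htn), ⟨gs_mono hu htn, fun j hj => ?_⟩,
      gs_shift hu (by omega), fun j hj => ?_⟩
    · show ⟪-e, S u 0 j⟫ ≤ ⟪-e, S u 0 t⟫
      rw [inner_neg_left, inner_neg_left]
      exact hmin j (hj.trans htn)
    · show 0 ≤ ⟪e, S (shift t u) 0 j⟫
      rw [S_shift, add_zero, inner_add e u (Nat.le_add_right t j)]
      have h1 := hmin (t + j) (by omega)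
      linarith
  have hρ : 0 < ρ := hβ.trans hβρ
  refine (measureReal_mono hsub (measure_ne_top _ _)).trans ?_
  refine (measureReal_biUnion_finset_le _ _).trans ?_
  have hb : ∀ t ∈ Finset.range (n + 1), (Pm m).real
      {u | u ∈ He m c a s (F false) t ∧ shift t u ∈ Hs m c a s (F true) (n - t)} ≤
      (2 * C) ^ 2 * ρ ^ n := by
    intro t ht
    have ht' : t ≤ n := Nat.lt_succ_iff.mp (Finset.mem_range.mp ht)
    rw [two_blocks hB t (n - t) _ _ (meas_He c a s (F false) t) (loc_He c a s (F false) t)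
      (meas_Hs c a s (F true) (n - t)) (loc_Hs c a s (F true) (n - t))]
    have h1 := r2 t false
    have h2 := r1 (n - t) true
    have h3 : ρ ^ n = ρ ^ t * ρ ^ (n - t) := by
      rw [← pow_add]
      congr 1
      omega
    calc _ ≤ (2 * C * ρ ^ t) * (2 * C * ρ ^ (n - t)) :=
          mul_le_mul h1 h2 measureReal_nonneg (by positivity)
      _ = (2 * C) ^ 2 * ρ ^ n := by
          rw [h3]
          ring
  refine (Finset.sum_le_sum hb).trans (le_of_eq ?_)
  rw [Finset.sum_const, Finset.card_range, nsmul_eq_mul]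
  push_cast
  ring

end Pool.Agent.H947.HS
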